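import Mathlib
import Pool.Agent.Helper95.DomDefs
import Pool.Agent.Helper95.DomFinal

set_option autoImplicit false

open MeasureTheory ProbabilityTheory Filter
open scoped Topology

namespace Pool.Agent.Results.MP_e8b04b_co.Exponent

open Pool.Agent.Helper95.Dom

/-- **Answer to Q1.** The exponent `β` exists, is positive, and equals the persistence exponent of
the stationary Gaussian process with correlation `(1 + |t|/2) e^{-|t|/2}`: with
`r n` the probability that two independent uniform partitions of `n` are comparable in the
dominance order, `log (r n) / log n → -β`, and `-log (pers l) / l → β`, where `pers l` is the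
probability that this Gaussian process is nonnegative on `[0, l]` (the infimum over all grids of
mesh `1/m` of the probability that it is nonnegative on the grid). -/
theorem result :
    ∃ β : ℝ, 0 < β ∧
      Tendsto (fun n : ℕ => Real.log (r n) / Real.log n) atTop (𝓝 (-β)) ∧
      Tendsto (fun l : ℕ => -Real.log (pers l) / l) atTop (𝓝 β) :=
  ⟨theta, theta_pos, r_exponent, theta_tendsto⟩

end Pool.Agent.Results.MP_e8b04b_co.Exponent
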